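import Pool.Agent.H12.KG.Targets

/-!
# A closed immersion does not change residue fields (helper16, kpg_modules IMM)
-/

set_option autoImplicit false

namespace Pool.Agent.H16.KG

open AlgebraicGeometry CategoryTheory Pool.Agent.H12.KP Pool.Agent.H12.KG

universe u

theorem stA_comp {A : Type u} [CommRing A] {X Y : Scheme.{u}} (i : X ⟶ Y)
    (g : Y ⟶ Spec (CommRingCat.of A)) (x : X) (a : A) :
    stA (i ≫ g) x a = (i.stalkMap x).hom (stA g (i x) a) := by
  have h1 : Y.presheaf.germ ⊤ (i x) trivial ≫ i.stalkMap x =
      i.appTop ≫ X.presheaf.germ ⊤ x trivial := i.germ_stalkMap ⊤ x trivial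
  have h2 : (i ≫ g).appTop ≫ X.presheaf.germ ⊤ x trivial =
      (g.appTop ≫ Y.presheaf.germ ⊤ (i x) trivial) ≫ i.stalkMap x := by
    rw [Scheme.Hom.comp_appTop, Category.assoc, Category.assoc, h1]
  have h3 := DFunLike.congr_fun (congrArg CommRingCat.Hom.hom h2)
    ((Scheme.ΓSpecIso (CommRingCat.of A)).inv.hom a)
  exact h3

theorem pf_IMM : S_IMM.{u} := by
  intro A _ X Y i g hi
  have hemb : Topology.IsClosedEmbedding i := i.isClosedEmbedding
  refine ⟨fun w y => (hemb.isInducing.specializes_iff).symm, ?_, fun x y h => hemb.injective h,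
    ?_, ?_, ?_⟩
  · intro w y' h
    have h1 : y' ∈ Set.range i := h.mem_closed hemb.isClosed_range ⟨w, rfl⟩
    exact h1
  · intro x
    constructor
    · intro h
      have := hemb.isClosedMap _ h
      rwa [Set.image_singleton] at this
    · intro h
      have h1 := h.preimage hemb.continuous
      have h2 : (i : X → Y) ⁻¹' {i x} = {x} := by
        ext z
        simp only [Set.mem_preimage, Set.mem_singleton_iff]
        exact ⟨fun h => hemb.injective h, fun h => by rw [h]⟩
      rwa [h2] at h1
  · intro π x
    unfold Sp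
    rw [stA_comp, isUnit_map_iff]
  · intro w
    have hsur : ∀ x : X, Function.Surjective (i.stalkMap x).hom := fun x =>
      i.stalkMap_surjective x
    have hres : ∀ (w : X) (s : Y.presheaf.stalk (i w)), (i.residueFieldMap w).hom
        ((Y.residue (i w)).hom s) = (X.residue w).hom ((i.stalkMap w).hom s) := by
      intro w s
      have := Scheme.residue_residueFieldMap i w
      have h2 := DFunLike.congr_fun (congrArg CommRingCat.Hom.hom this) s
      exact h2
    have hsp : ∀ (x : X) (h : w ⤳ x) (h' : i w ⤳ i x) (s : Y.presheaf.stalk (i x)),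
        (i.residueFieldMap w).hom (rho h' s) = rho h ((i.stalkMap x).hom s) := by
      intro x h h' s
      show (i.residueFieldMap w).hom ((Y.residue (i w)).hom
        ((Y.presheaf.stalkSpecializes h').hom s)) =
        (X.residue w).hom ((X.presheaf.stalkSpecializes h).hom ((i.stalkMap x).hom s))
      rw [hres]
      congr 1
      exact Scheme.Hom.stalkSpecializes_stalkMap_apply i w x h s
    refine ⟨(i.residueFieldMap w).hom, ⟨(i.residueFieldMap w).hom.injective, ?_⟩, ?_, ?_⟩
    · intro z
      obtain ⟨t, rfl⟩ := X.residue_surjective w z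
      obtain ⟨s, rfl⟩ := hsur w t
      exact ⟨(Y.residue (i w)).hom s, hres w s⟩
    · intro a
      show (i.residueFieldMap w).hom ((Y.residue (i w)).hom (stA g (i w) a)) =
        (X.residue w).hom (stA (i ≫ g) w a)
      rw [hres, stA_comp]
    · intro x h h'
      refine ⟨fun s => ⟨(i.stalkMap x).hom s, hsp x h h' s⟩, fun t => ?_⟩
      obtain ⟨s, rfl⟩ := hsur x t
      exact ⟨s, hsp x h h' s⟩

end Pool.Agent.H16.KG
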